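import Pool.Agent.H222Z.ES.Defs

/-! Deterministic lemmas for the finite theorem I (elementary symmetric polynomials). -/

namespace Pool.Agent.H833Z.FinI

open Finset Polynomial Pool.Agent.H222Z.ES

/-- The series of the logarithmic derivative of `1 + z X`. -/
noncomputable def Gz (z : ℂ) : PowerSeries ℂ := PowerSeries.mk fun i => (-1) ^ i * z ^ (i + 1)

lemma Gz_mul (z : ℂ) : Gz z * (1 + PowerSeries.C z * PowerSeries.X) = PowerSeries.C z := by
  ext i
  rcases i with _ | i
  · simp [Gz, mul_add]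
  · rw [mul_add, mul_one, map_add, ← mul_assoc, PowerSeries.coeff_succ_mul_X,
      PowerSeries.coeff_mul_C]
    simp [Gz]
    ring

lemma Qp_cons {Ω : Type} (y : Ω → ℂ) (a : Ω) (s : Multiset Ω) :
    Qp y (a ::ₘ s) = (1 + C (y a) * X) * Qp y s := by
  simp [Qp]

lemma Qp_rep {Ω : Type} (y : Ω → ℂ) (a : Ω) (i : ℕ) (s : Multiset Ω) :
    Qp y (Multiset.replicate i a + s) = (1 + C (y a) * X) ^ i * Qp y s := by
  simp [Qp]

lemma Qp_coeff_zero {Ω : Type} (y : Ω → ℂ) (s : Multiset Ω) : (Qp y s).coeff 0 = 1 := by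
  induction s using Multiset.induction_on with
  | empty => simp [Qp]
  | cons a s ih => rw [Qp_cons, mul_coeff_zero, ih]; simp

lemma logder {Ω : Type} (y : Ω → ℂ) (s : Multiset Ω) :
    ((derivative (Qp y s) : ℂ[X]) : PowerSeries ℂ) =
      (s.map fun ω => Gz (y ω)).sum * (Qp y s : PowerSeries ℂ) := by
  induction s using Multiset.induction_on with
  | empty => simp [Qp]
  | cons a s ih =>
    rw [Qp_cons, derivative_mul]
    simp only [derivative_add, derivative_one, derivative_mul, derivative_C, derivative_X,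
      zero_mul, mul_one, zero_add, Polynomial.coe_add, Polynomial.coe_mul, Polynomial.coe_C,
      Polynomial.coe_X, Polynomial.coe_one, Multiset.map_cons, Multiset.sum_cons, ih]
    have := Gz_mul (y a)
    linear_combination (-(Qp y s : PowerSeries ℂ)) * this

lemma coeff_G {Ω : Type} (y : Ω → ℂ) (s : Multiset Ω) (i : ℕ) :
    PowerSeries.coeff i (s.map fun ω => Gz (y ω)).sum =
      (-1) ^ i * (s.map fun ω => y ω ^ (i + 1)).sum := by
  induction s using Multiset.induction_on with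
  | empty => simp
  | cons a s ih =>
    simp only [Multiset.map_cons, Multiset.sum_cons, map_add, ih]
    simp [Gz, mul_add]

/-- Newton identities. -/
lemma newton {Ω : Type} (y : Ω → ℂ) (s : Multiset Ω) (j : ℕ) :
    ((j + 1 : ℕ) : ℂ) * (Qp y s).coeff (j + 1) = ∑ i ∈ range (j + 1),
      ((-1) ^ i * (s.map fun ω => y ω ^ (i + 1)).sum) * (Qp y s).coeff (j - i) := by
  have h := congrArg (PowerSeries.coeff j) (logder y s)
  rw [PowerSeries.coeff_mul, Finset.Nat.sum_antidiagonal_eq_sum_range_succ_mk] at h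
  simp only [Polynomial.coeff_coe, coeff_G, coeff_derivative] at h
  rw [← h]; push_cast; ring

lemma norm_psum {Ω : Type} (y : Ω → ℂ) {R : ℝ} (hR : ∀ ω, ‖y ω‖ ≤ R) (j : ℕ) (s : Multiset Ω) :
    ‖(s.map fun ω => y ω ^ j).sum‖ ≤ s.card * R ^ j := by
  induction s using Multiset.induction_on with
  | empty => simp
  | cons a s ih =>
    simp only [Multiset.map_cons, Multiset.sum_cons, Multiset.card_cons]
    have h1 : ‖y a ^ j‖ ≤ R ^ j := by
      rw [norm_pow]; exact pow_le_pow_left₀ (norm_nonneg _) (hR a) j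
    have := norm_add_le (y a ^ j) (s.map fun ω => y ω ^ j).sum
    push_cast
    linarith

/-- Domination: a coefficient close to the top index dominates all earlier ones. -/
lemma dom (e G : ℕ → ℂ) (m k : ℕ) (n Λ R κ γ c0 : ℝ) (he0 : e 0 = 1)
    (hN : ∀ j, ((j + 1 : ℕ) : ℂ) * e (j + 1) = ∑ i ∈ range (j + 1), G i * e (j - i))
    (hlow : ∀ i < m, ‖G i‖ ≤ κ * n) (hmid : c0 * n ≤ ‖G m‖) (hall : ∀ i, ‖G i‖ ≤ n * R ^ (i + 1))
    (hk : (k : ℝ) ≤ γ * n) (hn : 0 < n) (hR : 1 ≤ R) (hΛ : 2 * R ≤ Λ) (hκ : 0 ≤ κ)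
    (hc : (γ + κ * m) * Λ ^ (m + 1) + 2 * R ^ (m + 2) / Λ < c0) :
    ∃ t ≤ k, k < t + (m + 1) ∧ 1 ≤ ‖e t‖ ∧ ∀ l ≤ t, ‖e l‖ * Λ ^ (t - l) ≤ ‖e t‖ := by
  have hΛ1 : 1 ≤ Λ := by linarith
  have hΛ0 : 0 < Λ := by linarith
  obtain ⟨t, ht, hmax⟩ := Finset.exists_max_image (range (k + 1)) (fun l => ‖e l‖ / Λ ^ l)
    ⟨0, by simp⟩
  have htk : t ≤ k := Nat.lt_succ_iff.1 (mem_range.1 ht)
  obtain ⟨f, hf⟩ : ∃ f, f = ‖e t‖ / Λ ^ t := ⟨_, rfl⟩
  have hft : ‖e t‖ = f * Λ ^ t := by rw [hf]; field_simp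
  have hb : ∀ l ≤ k, ‖e l‖ ≤ f * Λ ^ l := fun l hl => by
    have := hmax l (mem_range.2 (by omega))
    rwa [← hf, div_le_iff₀ (by positivity)] at this
  have hf1 : 1 ≤ f := by simpa [he0] using hb 0 (by omega)
  refine ⟨t, htk, ?_, ?_, fun l hl => ?_⟩
  · by_contra hcon
    push Not at hcon
    have N := hN (m + t)
    rw [show m + t + 1 = m + 1 + t by ring, sum_range_add, sum_range_succ,
      show m + t - m = t by omega] at N
    have e1 : G m * e t = ((m + 1 + t : ℕ) : ℂ) * e (m + 1 + t) -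
        ∑ i ∈ range m, G i * e (m + t - i) -
        ∑ r ∈ range t, G (m + 1 + r) * e (m + t - (m + 1 + r)) := by
      rw [N]; ring
    have b0 : c0 * n * (f * Λ ^ t) ≤ ‖G m * e t‖ := by
      rw [norm_mul, hft]; exact mul_le_mul_of_nonneg_right hmid (by positivity)
    have b1 : ‖((m + 1 + t : ℕ) : ℂ) * e (m + 1 + t)‖ ≤ γ * n * (f * Λ ^ (m + 1 + t)) := by
      rw [norm_mul, Complex.norm_natCast]
      refine mul_le_mul ?_ (hb _ (by omega)) (norm_nonneg _) ((Nat.cast_nonneg k).trans hk)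
      exact le_trans (by exact_mod_cast (by omega : m + 1 + t ≤ k)) hk
    have b2 : ‖∑ i ∈ range m, G i * e (m + t - i)‖ ≤ m * (κ * n * (f * Λ ^ (m + 1 + t))) := by
      refine (norm_sum_le _ _).trans ?_
      have : ∀ i ∈ range m, ‖G i * e (m + t - i)‖ ≤ κ * n * (f * Λ ^ (m + 1 + t)) := by
        intro i hi
        rw [norm_mul]
        refine mul_le_mul (hlow i (mem_range.1 hi)) ((hb _ (by omega)).trans ?_) (norm_nonneg _)
          (by positivity)
        exact mul_le_mul_of_nonneg_left (pow_le_pow_right₀ hΛ1 (by omega)) (by linarith)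
      simpa using Finset.sum_le_card_nsmul _ _ _ this
    have b3 : ‖∑ r ∈ range t, G (m + 1 + r) * e (m + t - (m + 1 + r))‖ ≤
        n * (f * Λ ^ t) * (R ^ (m + 2) / Λ) * 2 := by
      refine (norm_sum_le _ _).trans ?_
      have : ∀ r ∈ range t, ‖G (m + 1 + r) * e (m + t - (m + 1 + r))‖ ≤
          n * (f * Λ ^ t) * (R ^ (m + 2) / Λ) * (1 / 2) ^ r := by
        intro r hr
        have hr' := mem_range.1 hr
        obtain ⟨q, rfl⟩ : ∃ q, t = r + 1 + q := ⟨t - (r + 1), by omega⟩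
        rw [norm_mul, show m + (r + 1 + q) - (m + 1 + r) = q by omega]
        refine (mul_le_mul (hall _) (hb q (by omega)) (norm_nonneg _) (by positivity)).trans ?_
        have h1 : R ^ r ≤ Λ ^ r * (1 / 2) ^ r := by
          rw [← mul_pow]; exact pow_le_pow_left₀ (by linarith) (by linarith) r
        have h2 : n * (f * Λ ^ (r + 1 + q)) * (R ^ (m + 2) / Λ) * (1 / 2) ^ r =
            n * R ^ (m + 2) * (f * Λ ^ q) * (Λ ^ r * (1 / 2) ^ r) := by
          field_simp; ring
        have h3 : n * R ^ (m + 1 + r + 1) * (f * Λ ^ q) =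
            n * R ^ (m + 2) * (f * Λ ^ q) * R ^ r := by ring
        rw [h2, h3]
        exact mul_le_mul_of_nonneg_left h1 (by positivity)
      refine (Finset.sum_le_sum this).trans ?_
      rw [← Finset.mul_sum]
      exact mul_le_mul_of_nonneg_left (sum_geometric_two_le t) (by positivity)
    have b4 : ‖G m * e t‖ ≤ γ * n * (f * Λ ^ (m + 1 + t)) + m * (κ * n * (f * Λ ^ (m + 1 + t))) +
        n * (f * Λ ^ t) * (R ^ (m + 2) / Λ) * 2 := by
      rw [e1]
      refine (norm_sub_le _ _).trans (add_le_add ((norm_sub_le _ _).trans ?_) b3)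
      exact add_le_add b1 b2
    have b5 : γ * n * (f * Λ ^ (m + 1 + t)) + m * (κ * n * (f * Λ ^ (m + 1 + t))) +
        n * (f * Λ ^ t) * (R ^ (m + 2) / Λ) * 2 =
        ((γ + κ * m) * Λ ^ (m + 1) + 2 * R ^ (m + 2) / Λ) * (n * (f * Λ ^ t)) := by ring
    have b6 := mul_lt_mul_of_pos_right hc (by positivity : 0 < n * (f * Λ ^ t))
    nlinarith
  · rw [hft]; exact one_le_mul_of_one_le_of_one_le hf1 (one_le_pow₀ hΛ1)
  · rw [hft]
    have := mul_le_mul_of_nonneg_right (hb l (by omega)) (by positivity : 0 ≤ Λ ^ (t - l))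
    rwa [mul_assoc, ← pow_add, show l + (t - l) = t by omega] at this

lemma coeff_step (Q : ℂ[X]) (z : ℂ) (l : ℕ) :
    ((1 + C z * X) * Q).coeff (l + 1) = Q.coeff (l + 1) + z * Q.coeff l := by
  rw [add_mul, one_mul, coeff_add, mul_assoc, coeff_C_mul, coeff_X_mul]

lemma coeff_step0 (Q : ℂ[X]) (z : ℂ) : ((1 + C z * X) * Q).coeff 0 = Q.coeff 0 := by
  simp [mul_coeff_zero]

lemma pert (Q : ℂ[X]) (z : ℂ) (t : ℕ) (Λ R V : ℝ) (hz : ‖z‖ ≤ R) (hΛ : 0 < Λ)
    (h : ∀ l ≤ t, ‖Q.coeff l‖ * Λ ^ (t - l) ≤ V) (r : ℕ) :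
    (∀ l ≤ t, ‖((1 + C z * X) ^ r * Q).coeff l‖ * Λ ^ (t - l) ≤ V * (1 + R / Λ) ^ r) ∧
      ‖((1 + C z * X) ^ r * Q).coeff t - Q.coeff t‖ ≤ V * ((1 + R / Λ) ^ r - 1) := by
  have hR : 0 ≤ R := (norm_nonneg _).trans hz
  have hV : 0 ≤ V := le_trans (by positivity) (h t le_rfl)
  induction r with
  | zero => simpa using h
  | succ r ih =>
    obtain ⟨ih1, ih2⟩ := ih
    have hW : 0 ≤ V * (1 + R / Λ) ^ r := by positivity
    have key : ∀ l, l + 1 ≤ t → ‖z * ((1 + C z * X) ^ r * Q).coeff l‖ * Λ ^ (t - (l + 1)) ≤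
        V * (1 + R / Λ) ^ r * (R / Λ) := by
      intro l hl
      have h1 := ih1 l (by omega)
      rw [show t - l = t - (l + 1) + 1 by omega, pow_succ, ← mul_assoc, ← le_div_iff₀ hΛ] at h1
      rw [norm_mul, mul_assoc]
      refine (mul_le_mul hz h1 (by positivity) hR).trans (le_of_eq ?_)
      ring
    rw [pow_succ', mul_assoc, pow_succ (1 + R / Λ)]
    constructor
    · intro l hl
      rcases l with _ | l
      · rw [coeff_step0]
        refine (ih1 0 hl).trans ?_
        have : 0 ≤ V * (1 + R / Λ) ^ r * (R / Λ) := by positivity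
        nlinarith
      · rw [coeff_step]
        have h1 := ih1 (l + 1) hl
        have h2 := key l hl
        have h3 := mul_le_mul_of_nonneg_right (norm_add_le (((1 + C z * X) ^ r * Q).coeff (l + 1))
          (z * ((1 + C z * X) ^ r * Q).coeff l)) (by positivity : 0 ≤ Λ ^ (t - (l + 1)))
        nlinarith
    · rcases t with _ | t
      · rw [coeff_step0]
        refine ih2.trans ?_
        have : 0 ≤ V * (1 + R / Λ) ^ r * (R / Λ) := by positivity
        nlinarith
      · rw [coeff_step]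
        have h2 := key t le_rfl
        rw [Nat.sub_self, pow_zero, mul_one] at h2
        have h3 := norm_add_le (((1 + C z * X) ^ r * Q).coeff (t + 1) - Q.coeff (t + 1))
          (z * ((1 + C z * X) ^ r * Q).coeff t)
        rw [add_sub_right_comm]
        nlinarith

lemma fewbad (β : ℕ → ℂ) (r : ℕ) (S : Finset ℕ) (hS : S.card = r + 1) (ε : ℝ)
    (h : ∀ i ∈ S, ‖∑ u ∈ range (r + 1), (i.choose u : ℂ) * β u‖ ≤ ε) :
    ‖β r‖ ≤ (r + 1).factorial * ε := by
  set P : ℂ[X] := ∑ u ∈ range (r + 1), C (β u / u.factorial) * descPochhammer ℂ u with hP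
  have hdeg : P.degree < S.card := by
    rw [hS, hP]
    refine (degree_sum_le _ _).trans_lt ?_
    rw [Finset.sup_lt_iff (by exact_mod_cast WithBot.bot_lt_coe (r + 1))]
    intro u hu
    refine (degree_le_of_natDegree_le ((natDegree_C_mul_le _ _).trans
      (descPochhammer_natDegree ℂ u).le)).trans_lt ?_
    exact_mod_cast mem_range.1 hu
  have hco : P.coeff r = β r / r.factorial := by
    rw [hP, finsetSum_coeff, sum_range_succ, Finset.sum_eq_zero, zero_add, coeff_C_mul]
    · have := (monic_descPochhammer ℂ r).coeff_natDegree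
      rw [descPochhammer_natDegree] at this
      rw [this, mul_one]
    · intro u hu
      rw [coeff_C_mul, coeff_eq_zero_of_natDegree_lt, mul_zero]
      rw [descPochhammer_natDegree]; exact mem_range.1 hu
  have hev : ∀ i : ℕ, P.eval (i : ℂ) = ∑ u ∈ range (r + 1), (i.choose u : ℂ) * β u := by
    intro i
    rw [hP, eval_finsetSum]
    refine Finset.sum_congr rfl fun u _ => ?_
    rw [eval_mul, eval_C, Nat.cast_choose_eq_descPochhammer_div]
    ring
  have L := Lagrange.coeff_eq_sum (s := S) (v := fun i : ℕ => (i : ℂ))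
    (fun a _ b _ hab => Nat.cast_injective hab) hdeg
  rw [hS, Nat.add_sub_cancel, hco] at L
  have hb : ∀ i ∈ S, ‖P.eval (i : ℂ) / ∏ j ∈ S.erase i, ((i : ℂ) - (j : ℂ))‖ ≤ ε := by
    intro i hi
    rw [norm_div, hev]
    refine (div_le_self (norm_nonneg _) ?_).trans (h i hi)
    rw [norm_prod]
    refine Finset.one_le_prod fun j hj => ?_
    have hne : (i : ℤ) - j ≠ 0 := sub_ne_zero.2 (by exact_mod_cast (ne_of_mem_erase hj).symm)
    have : (i : ℂ) - j = (((i : ℤ) - j : ℤ) : ℂ) := by push_cast; rfl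
    rw [this, Complex.norm_intCast]
    exact_mod_cast Int.one_le_abs hne
  have h2 : ‖β r / (r.factorial : ℂ)‖ ≤ (r + 1) * ε := by
    rw [L]
    refine (norm_sum_le _ _).trans ?_
    have := Finset.sum_le_card_nsmul _ _ _ hb
    rw [hS] at this
    simpa using this
  rw [norm_div, Complex.norm_natCast, div_le_iff₀ (by positivity)] at h2
  rw [Nat.factorial_succ]; push_cast; linarith

/-- At most `m` of the ways to add `l` points of two kinds give a small coefficient. -/
lemma det (Q : ℂ[X]) (za zb : ℂ) (k t m l J : ℕ) (Λ R c : ℝ) (htk : t ≤ k) (hk : k < t + m)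
    (h1 : 1 ≤ ‖Q.coeff t‖) (hd : ∀ l ≤ t, ‖Q.coeff l‖ * Λ ^ (t - l) ≤ ‖Q.coeff t‖)
    (ha : ‖za‖ ≤ R) (hb : ‖zb‖ ≤ R) (hl : l ≤ J) (hΛ : 1 ≤ Λ) (hJ : (1 + R / Λ) ^ J ≤ 3 / 2)
    (hc0 : 0 ≤ c)
    (hc : m.factorial * (c + 2 * (1 + 2 * R) ^ J / Λ) < (min 1 ‖za - zb‖) ^ m / 2) :
    ((range (l + 1)).filter fun i =>
      ‖((1 + C za * X) ^ i * ((1 + C zb * X) ^ (l - i) * Q)).coeff k‖ < c).card ≤ m := by
  by_contra hcon
  push Not at hcon
  have hR : 0 ≤ R := (norm_nonneg _).trans ha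
  have hΛ0 : 0 < Λ := by linarith
  obtain ⟨r, rfl⟩ := Nat.exists_eq_add_of_le htk
  obtain ⟨S, hS1, hS2⟩ := Finset.exists_subset_card_eq (n := r + 1) (le_trans (by omega) hcon.le)
  set V := ‖Q.coeff t‖ with hV
  set d := za - zb with hdd
  have hdR : ‖d‖ ≤ 2 * R := (norm_sub_le _ _).trans (by linarith)
  set β : ℕ → ℂ := fun u => d ^ u * (X ^ u * ((1 + C zb * X) ^ (l - u) * Q)).coeff (t + r)
    with hβ
  have hp := fun u => pert Q zb t Λ R V hb hΛ0 hd (l - u)
  have hpow : ∀ u, (1 + R / Λ) ^ (l - u) ≤ 3 / 2 := fun u =>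
    (pow_le_pow_right₀ (by have := div_nonneg hR hΛ0.le; linarith) (by omega)).trans hJ
  have hexp : ∀ i ≤ l, ((1 + C za * X) ^ i * ((1 + C zb * X) ^ (l - i) * Q)).coeff (t + r) =
      ∑ u ∈ range (i + 1), (i.choose u : ℂ) * β u := by
    intro i hi
    have e1 : (1 + C za * X : ℂ[X]) = C d * X + (1 + C zb * X) := by
      rw [hdd, C_sub]; ring
    rw [e1, add_pow, Finset.sum_mul, finsetSum_coeff]
    refine Finset.sum_congr rfl fun u hu => ?_
    have hu' := mem_range.1 hu
    have e2 : (C d * X) ^ u * (1 + C zb * X) ^ (i - u) * (i.choose u : ℂ[X]) *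
        ((1 + C zb * X) ^ (l - i) * Q) =
        C ((i.choose u : ℂ) * d ^ u) * (X ^ u * ((1 + C zb * X) ^ (l - u) * Q)) := by
      rw [show l - u = (i - u) + (l - i) by omega, pow_add, C_mul, C_pow, map_natCast]
      ring
    rw [e2, coeff_C_mul, hβ]
    ring
  have htail : ∀ u, r < u → ‖β u‖ ≤ ‖d‖ ^ u * (2 * V / Λ) := by
    intro u hu
    rw [hβ]
    simp only [norm_mul, norm_pow]
    refine mul_le_mul_of_nonneg_left ?_ (by positivity)
    rw [coeff_X_pow_mul']
    split_ifs with h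
    · have q1 := (hp u).1 (t + r - u) (by omega)
      have q2 : Λ ≤ Λ ^ (t - (t + r - u)) := le_self_pow₀ hΛ (by omega)
      rw [le_div_iff₀ hΛ0]
      have q3 := mul_le_mul_of_nonneg_left q2
        (norm_nonneg (((1 + C zb * X) ^ (l - u) * Q).coeff (t + r - u)))
      have q4 := mul_le_mul_of_nonneg_left (hpow u) (by linarith : 0 ≤ V)
      linarith
    · rw [norm_zero]; positivity
  have htop : ‖d‖ ^ r * (V / 2) ≤ ‖β r‖ := by
    rw [hβ]
    simp only [norm_mul, norm_pow]
    refine mul_le_mul_of_nonneg_left ?_ (by positivity)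
    rw [coeff_X_pow_mul', if_pos (by omega), Nat.add_sub_cancel]
    have q1 := (hp r).2
    have q4 := mul_le_mul_of_nonneg_left (hpow r) (by linarith : 0 ≤ V)
    have q5 := norm_sub_norm_le (Q.coeff t) (((1 + C zb * X) ^ (l - r) * Q).coeff t)
    rw [norm_sub_rev] at q5
    linarith
  have fb := fewbad β r S hS2 ((c + 2 * (1 + 2 * R) ^ J / Λ) * V) fun i hi => by
    obtain ⟨hi1, hi2⟩ := mem_filter.1 (hS1 hi)
    have hil : i ≤ l := Nat.lt_succ_iff.1 (mem_range.1 hi1)
    rw [hexp i hil] at hi2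
    have e1 : ∑ u ∈ range (r + 1), (i.choose u : ℂ) * β u =
        ∑ u ∈ range (i + 1), (i.choose u : ℂ) * β u -
          ∑ u ∈ range (i + 1), (i.choose u : ℂ) * (if r < u then β u else 0) := by
      rw [← Finset.sum_sub_distrib]
      have a1 : ∑ u ∈ range (r + 1), (i.choose u : ℂ) * β u =
          ∑ u ∈ range (i + r + 1), (if r < u then 0 else (i.choose u : ℂ) * β u) := by
        rw [← Finset.sum_subset (s₁ := range (r + 1)) (s₂ := range (i + r + 1))
          (range_subset_range.2 (by omega))]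
        · refine Finset.sum_congr rfl fun u hu => ?_
          rw [if_neg (by have := mem_range.1 hu; omega)]
        · intro u _ hu
          rw [if_pos (by simp at hu; omega)]
      rw [a1, ← Finset.sum_subset (s₁ := range (i + 1)) (s₂ := range (i + r + 1))
        (range_subset_range.2 (by omega))]
      · refine Finset.sum_congr rfl fun u _ => ?_
        split_ifs <;> simp
      · intro u _ hu
        rw [Nat.choose_eq_zero_of_lt (by simp at hu; omega)]
        simp
    have e2 : ‖∑ u ∈ range (i + 1), (i.choose u : ℂ) * (if r < u then β u else 0)‖ ≤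
        (‖d‖ + 1) ^ i * (2 * V / Λ) := by
      refine (norm_sum_le _ _).trans ?_
      rw [add_pow, Finset.sum_mul]
      refine Finset.sum_le_sum fun u _ => ?_
      rw [norm_mul, Complex.norm_natCast, one_pow, mul_one]
      have : ‖(if r < u then β u else 0)‖ ≤ ‖d‖ ^ u * (2 * V / Λ) := by
        split_ifs with h
        · exact htail u h
        · rw [norm_zero]; positivity
      have := mul_le_mul_of_nonneg_left this (Nat.cast_nonneg (α := ℝ) (i.choose u))
      linarith
    have e3 : (‖d‖ + 1) ^ i ≤ (1 + 2 * R) ^ J :=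
      (pow_le_pow_left₀ (by positivity) (by linarith) i).trans
        (pow_le_pow_right₀ (by linarith) (by omega))
    have e4 := mul_le_mul_of_nonneg_right e3 (by positivity : 0 ≤ 2 * V / Λ)
    have e5 : c ≤ c * V := le_mul_of_one_le_right hc0 h1
    rw [e1]
    refine (norm_sub_le _ _).trans ?_
    have e6 : (c + 2 * (1 + 2 * R) ^ J / Λ) * V = c * V + (1 + 2 * R) ^ J * (2 * V / Λ) := by ring
    linarith
  have f1 : ((r + 1).factorial : ℝ) ≤ m.factorial := by
    exact_mod_cast Nat.factorial_le (by omega)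
  have f2 : (min 1 ‖d‖) ^ m ≤ ‖d‖ ^ r :=
    (pow_le_pow_of_le_one (by positivity) (min_le_left _ _) (by omega)).trans
      (pow_le_pow_left₀ (by positivity) (min_le_right _ _) r)
  have f3 := mul_le_mul_of_nonneg_right f1
    (by positivity : 0 ≤ (c + 2 * (1 + 2 * R) ^ J / Λ) * V)
  have f4 := mul_lt_mul_of_pos_right hc (by linarith : 0 < V)
  have f5 := mul_le_mul_of_nonneg_right f2 (by linarith : 0 ≤ V / 2)
  nlinarith

lemma central (n : ℕ) : n.centralBinom ^ 2 * (2 * n + 1) ≤ 16 ^ n := by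
  induction n with
  | zero => simp
  | succ n ih =>
    have h := Nat.succ_mul_centralBinom_succ n
    have h2 : (n + 1) ^ 2 * ((n + 1).centralBinom ^ 2 * (2 * (n + 1) + 1)) ≤
        (n + 1) ^ 2 * 16 ^ (n + 1) := by
      calc (n + 1) ^ 2 * ((n + 1).centralBinom ^ 2 * (2 * (n + 1) + 1))
          = ((n + 1) * (n + 1).centralBinom) ^ 2 * (2 * n + 3) := by ring
        _ = 4 * (2 * n + 1) * (2 * n + 3) * (n.centralBinom ^ 2 * (2 * n + 1)) := by
          rw [h]; ring
        _ ≤ (16 * (n + 1) ^ 2) * 16 ^ n := Nat.mul_le_mul (by nlinarith) ih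
        _ = (n + 1) ^ 2 * 16 ^ (n + 1) := by ring
    exact Nat.le_of_mul_le_mul_left h2 (by positivity)

lemma choose_sq (l i : ℕ) : l.choose i ^ 2 * l ≤ 4 ^ l := by
  obtain ⟨n, rfl | rfl⟩ := Nat.even_or_odd' l
  · have h1 := Nat.choose_le_centralBinom i n
    calc (2 * n).choose i ^ 2 * (2 * n) ≤ n.centralBinom ^ 2 * (2 * n + 1) :=
          Nat.mul_le_mul (Nat.pow_le_pow_left h1 2) (by omega)
      _ ≤ 16 ^ n := central n
      _ = 4 ^ (2 * n) := by rw [pow_mul]; norm_num
  · have h1 : (2 * n + 1).choose i ≤ 2 * n.centralBinom := by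
      rcases i with _ | i
      · have := Nat.centralBinom_pos n
        simp; omega
      · rw [Nat.choose_succ_succ']
        have a1 := Nat.choose_le_centralBinom i n
        have a2 := Nat.choose_le_centralBinom (i + 1) n
        omega
    calc (2 * n + 1).choose i ^ 2 * (2 * n + 1) ≤ (2 * n.centralBinom) ^ 2 * (2 * n + 1) :=
          Nat.mul_le_mul_right _ (Nat.pow_le_pow_left h1 2)
      _ = 4 * (n.centralBinom ^ 2 * (2 * n + 1)) := by ring
      _ ≤ 4 * 16 ^ n := Nat.mul_le_mul_left _ (central n)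
      _ = 4 ^ (2 * n + 1) := by rw [pow_succ, pow_mul]; norm_num; ring

lemma choose_small {η : ℝ} (hη : 0 < η) {l : ℕ} (hl : 1 / η ^ 2 ≤ l) (i : ℕ) :
    (l.choose i : ℝ) ≤ η * 2 ^ l := by
  have h1 : ((l.choose i : ℝ)) ^ 2 * l ≤ 4 ^ l := by exact_mod_cast choose_sq l i
  have h2 : (4 : ℝ) ^ l = (2 ^ l) ^ 2 := by rw [← pow_mul, mul_comm, pow_mul]; norm_num
  rw [div_le_iff₀ (by positivity)] at hl
  refine (sq_le_sq₀ (by positivity) (by positivity)).1 ?_
  have h3 := mul_le_mul_of_nonneg_left hl (sq_nonneg (l.choose i : ℝ))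
  have h4 := mul_le_mul_of_nonneg_right h1 (sq_nonneg η)
  rw [mul_pow]
  nlinarith

end Pool.Agent.H833Z.FinI
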