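import Pool.Agent.H833Z.FinIA

/-! The finite theorem I (elementary symmetric polynomials, fixed law with finite support). -/

namespace Pool.Agent.H833Z.FinI

open Finset Polynomial Pool.Agent.H222Z.ES

variable {Ω : Type} [Fintype Ω]

lemma var (w : Ω → ℝ) (hw : ∑ ω, w ω = 1) (g : Ω → ℂ) (hg : ∑ ω, (w ω : ℂ) * g ω = 0) (n : ℕ) :
    ∀ s0 : Multiset Ω, E w n (fun s => Complex.normSq (s.map g).sum) s0 =
      Complex.normSq (s0.map g).sum + n * ∑ ω, w ω * Complex.normSq (g ω) := by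
  induction n with
  | zero => intro s0; simp
  | succ n ih =>
    intro s0
    rw [E_succ]
    simp only [ih, Multiset.map_cons, Multiset.sum_cons, Complex.normSq_add]
    have h1 : ∑ ω, w ω * (2 * (g ω * (starRingEnd ℂ) (s0.map g).sum).re) = 0 := by
      have : ∑ ω, w ω * (2 * (g ω * (starRingEnd ℂ) (s0.map g).sum).re) =
          2 * ((∑ ω, (w ω : ℂ) * g ω) * (starRingEnd ℂ) (s0.map g).sum).re := by
        rw [Finset.sum_mul, Complex.re_sum, Finset.mul_sum]
        refine Finset.sum_congr rfl fun ω _ => ?_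
        rw [mul_assoc (w ω : ℂ), Complex.re_ofReal_mul]; ring
      rw [this, hg]; simp
    simp only [mul_add, Finset.sum_add_distrib, h1, ← Finset.sum_mul, hw]
    push_cast; ring

lemma cheb (w : Ω → ℝ) (hw0 : ∀ ω, 0 ≤ w ω) (hw : ∑ ω, w ω = 1) (g : Ω → ℂ)
    (hg : ∑ ω, (w ω : ℂ) * g ω = 0) {B : ℝ} (hB : ∀ ω, ‖g ω‖ ≤ B) (n : ℕ) {x : ℝ} (hx : 0 < x) :
    E w n (fun s => ind (x < ‖(s.map g).sum‖)) 0 ≤ n * B ^ 2 / x ^ 2 := by
  have h1 : E w n (fun s => ind (x < ‖(s.map g).sum‖)) 0 ≤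
      E w n (fun s => (1 / x ^ 2) * Complex.normSq (s.map g).sum) 0 := by
    refine E_mono hw0 n fun t _ _ => ?_
    by_cases h : x < ‖((0 + t).map g).sum‖
    · rw [ind_pos h, Complex.normSq_eq_norm_sq, one_div, ← div_eq_inv_mul,
        le_div_iff₀ (by positivity), one_mul]
      exact pow_le_pow_left₀ hx.le h.le 2
    · rw [ind_neg h]
      exact mul_nonneg (by positivity) (Complex.normSq_nonneg _)
  rw [E_mul, var w hw g hg] at h1
  have h2 : ∑ ω, w ω * Complex.normSq (g ω) ≤ B ^ 2 := by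
    calc ∑ ω, w ω * Complex.normSq (g ω) ≤ ∑ ω, w ω * B ^ 2 := by
          refine Finset.sum_le_sum fun ω _ => mul_le_mul_of_nonneg_left ?_ (hw0 ω)
          rw [Complex.normSq_eq_norm_sq]
          exact pow_le_pow_left₀ (norm_nonneg _) (hB ω) 2
      _ = B ^ 2 := by rw [← Finset.sum_mul, hw, one_mul]
  refine h1.trans ?_
  simp only [Multiset.map_zero, Multiset.sum_zero, map_zero, zero_add]
  rw [one_div, ← div_eq_inv_mul]
  exact div_le_div_of_nonneg_right (mul_le_mul_of_nonneg_left h2 (Nat.cast_nonneg n))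
    (by positivity)

lemma E_single [DecidableEq Ω] (a : Ω) (c : ℝ) (φ : Multiset Ω → ℝ) (i : ℕ) :
    ∀ s, E (Pi.single a c) i φ s = c ^ i * φ (Multiset.replicate i a + s) := by
  induction i with
  | zero => intro s; simp
  | succ i ih =>
    intro s
    rw [E_succ, Finset.sum_eq_single a]
    · rw [ih, Pi.single_eq_same, Multiset.replicate_succ, Multiset.add_cons, Multiset.cons_add]
      ring
    · intro b _ hb
      rw [Pi.single_eq_of_ne hb, zero_mul]
    · simp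

lemma exists_moment (w : Ω → ℝ) (hw0 : ∀ ω, 0 ≤ w ω) (y : Ω → ℂ) (a : Ω) (ha : 0 < w a)
    (hy : y a ≠ 0) : ∃ m : ℕ, ∑ ω, (w ω : ℂ) * y ω ^ (m + 1) ≠ 0 := by
  classical
  by_contra hcon
  push Not at hcon
  have key : ∀ q : ℂ[X], ∑ ω, (w ω : ℂ) * (y ω * q.eval (y ω)) = 0 := by
    intro q
    induction q using Polynomial.induction_on' with
    | add p q hp hq => simp only [eval_add, mul_add, Finset.sum_add_distrib, hp, hq, add_zero]
    | monomial m c =>
      have : ∑ ω, (w ω : ℂ) * (y ω * (monomial m c).eval (y ω)) =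
          c * ∑ ω, (w ω : ℂ) * y ω ^ (m + 1) := by
        rw [Finset.mul_sum]
        refine Finset.sum_congr rfl fun ω _ => ?_
        rw [eval_monomial]; ring
      rw [this, hcon, mul_zero]
  set q : ℂ[X] := ∏ ω ∈ univ.filter fun ω => y ω ≠ y a, (X - C (y ω)) with hq
  have hq1 : q.eval (y a) ≠ 0 := by
    rw [hq, eval_prod]
    refine Finset.prod_ne_zero_iff.2 fun ω hω => ?_
    simpa [sub_eq_zero] using (mem_filter.1 hω).2.symm
  have hq2 : ∀ ω, y ω ≠ y a → q.eval (y ω) = 0 := by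
    intro ω hω
    rw [hq, eval_prod]
    exact Finset.prod_eq_zero (mem_filter.2 ⟨mem_univ ω, hω⟩) (by simp)
  have h1 : ∑ ω, (w ω : ℂ) * (y ω * q.eval (y ω)) =
      ((∑ ω, if y ω = y a then w ω else 0 : ℝ) : ℂ) * (y a * q.eval (y a)) := by
    push_cast
    rw [Finset.sum_mul]
    refine Finset.sum_congr rfl fun ω _ => ?_
    split_ifs with h
    · rw [h]
    · simp [hq2 ω h]
  have h2 : 0 < ∑ ω, if y ω = y a then w ω else 0 :=
    Finset.sum_pos' (fun ω _ => by split_ifs; exacts [hw0 ω, le_rfl]) ⟨a, mem_univ a, by simpa⟩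
  rw [key q] at h1
  exact mul_ne_zero (by exact_mod_cast h2.ne') (mul_ne_zero hy hq1) h1.symm

omit [Fintype Ω] in
lemma psum_shift (y : Ω → ℂ) (j : ℕ) (μ : ℂ) (s : Multiset Ω) :
    (s.map fun ω => y ω ^ j - μ).sum = (s.map fun ω => y ω ^ j).sum - s.card * μ := by
  induction s using Multiset.induction_on with
  | empty => simp
  | cons a s ih => simp only [Multiset.map_cons, Multiset.sum_cons, ih, Multiset.card_cons]; push_cast; ring

omit [Fintype Ω] in
/-- Typical power sums of the whole sample: few bad ways to add the special points. -/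
lemma few (y : Ω → ℂ) (a b : Ω) (μ : ℕ → ℂ) (m n k l J : ℕ) (R Λ κ γ c : ℝ) (s U : Multiset Ω)
    (hy : ∀ ω, ‖y ω‖ ≤ R) (hR : 1 ≤ R) (hμ : ∀ i < m, μ i = 0) (hn : 0 < n)
    (hU : U.card ≤ J) (hcard : (U + s).card = n) (hl : l ≤ J)
    (htyp : ∀ j < m + 1, ‖((U + s).map fun ω => y ω ^ (j + 1) - μ j).sum‖ ≤ κ * n)
    (hJn : J * R ^ (m + 1) ≤ κ * n) (hκ : 0 ≤ κ) (hκ2 : 4 * κ ≤ ‖μ m‖) (hk : (k : ℝ) ≤ γ * n)
    (hΛ : 2 * R ≤ Λ)
    (hc1 : (γ + 2 * κ * m) * Λ ^ (m + 1) + 2 * R ^ (m + 2) / Λ < ‖μ m‖ / 2)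
    (hJ : (1 + R / Λ) ^ J ≤ 3 / 2) (hc0 : 0 ≤ c)
    (hc : (m + 1).factorial * (c + 2 * (1 + 2 * R) ^ J / Λ) < (min 1 ‖y a - y b‖) ^ (m + 1) / 2) :
    ((range (l + 1)).filter fun i => ‖(Qp y (Multiset.replicate i a +
      (Multiset.replicate (l - i) b + s))).coeff k‖ < c).card ≤ m + 1 := by
  have hn' : (0 : ℝ) < n := by exact_mod_cast hn
  have hclose : ∀ j < m + 1, ‖(s.map fun ω => y ω ^ (j + 1)).sum - n * μ j‖ ≤ 2 * κ * n := by
    intro j hj
    have h1 := htyp j hj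
    rw [psum_shift, hcard, Multiset.map_add, Multiset.sum_add] at h1
    have h2 := norm_psum y hy (j + 1) U
    have h3 : (U.card : ℝ) * R ^ (j + 1) ≤ J * R ^ (m + 1) :=
      mul_le_mul (by exact_mod_cast hU) (pow_le_pow_right₀ hR (by omega)) (by positivity)
        (by positivity)
    have h4 := norm_sub_le ((U.map fun ω => y ω ^ (j + 1)).sum + (s.map fun ω => y ω ^ (j + 1)).sum
      - n * μ j) (U.map fun ω => y ω ^ (j + 1)).sum
    rw [show (U.map fun ω => y ω ^ (j + 1)).sum + (s.map fun ω => y ω ^ (j + 1)).sum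
      - n * μ j - (U.map fun ω => y ω ^ (j + 1)).sum =
      (s.map fun ω => y ω ^ (j + 1)).sum - n * μ j by ring] at h4
    linarith
  have nG : ∀ i : ℕ, ‖(-1 : ℂ) ^ i * (s.map fun ω => y ω ^ (i + 1)).sum‖ =
      ‖(s.map fun ω => y ω ^ (i + 1)).sum‖ := fun i => by simp
  obtain ⟨t, ht1, ht2, ht3, ht4⟩ := dom (fun j => (Qp y s).coeff j)
    (fun i => (-1) ^ i * (s.map fun ω => y ω ^ (i + 1)).sum) m k n Λ R (2 * κ) γ (‖μ m‖ / 2)
    (Qp_coeff_zero y s) (newton y s)
    (fun i hi => by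
      have := hclose i (by omega)
      rw [hμ i hi, mul_zero, sub_zero] at this
      rw [nG]; exact this)
    (by
      have h1 := hclose m (by omega)
      have h2 := norm_sub_norm_le ((n : ℂ) * μ m) (s.map fun ω => y ω ^ (m + 1)).sum
      rw [norm_sub_rev, norm_mul, Complex.norm_natCast] at h2
      rw [nG]
      nlinarith)
    (fun i => by
      rw [nG]
      refine (norm_psum y hy (i + 1) s).trans (mul_le_mul_of_nonneg_right ?_ (by positivity))
      rw [Multiset.card_add] at hcard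
      exact_mod_cast (by omega : s.card ≤ n))
    hk hn' hR hΛ (by linarith) hc1
  simp only [Qp_rep]
  exact det (Qp y s) (y a) (y b) k t (m + 1) l J Λ R c ht1 ht2 ht3 ht4 (hy a) (hy b) hl
    (by linarith) hJ hc0 hc

lemma exists_Lam (R δ c0 : ℝ) (m J : ℕ) (hR : 1 ≤ R) (hδ : 0 < δ) (hc0 : 0 < c0) :
    ∃ Λ : ℝ, 2 * R ≤ Λ ∧ 2 * R ^ (m + 2) / Λ < c0 ∧ (1 + R / Λ) ^ J ≤ 3 / 2 ∧
      2 * (1 + 2 * R) ^ J / Λ < δ := by
  have t0 : ∀ A : ℝ, Filter.Tendsto (fun Λ : ℝ => A / Λ) Filter.atTop (nhds 0) := fun A =>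
    Filter.Tendsto.div_atTop tendsto_const_nhds Filter.tendsto_id
  have t1 : Filter.Tendsto (fun Λ : ℝ => (1 + R / Λ) ^ J) Filter.atTop (nhds 1) := by
    simpa using ((t0 R).const_add 1).pow J
  obtain ⟨Λ, h1, h2, h3, h4⟩ := ((Filter.eventually_ge_atTop (2 * R)).and
    (((t0 (2 * R ^ (m + 2))).eventually (gt_mem_nhds hc0)).and
    ((t1.eventually (ge_mem_nhds (by norm_num : (1 : ℝ) < 3 / 2))).and
    ((t0 (2 * (1 + 2 * R) ^ J)).eventually (gt_mem_nhds hδ))))).exists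
  exact ⟨Λ, h1, h2, h3, h4⟩

end Pool.Agent.H833Z.FinI

namespace Pool.Agent.H833Z

open Finset Polynomial Pool.Agent.H222Z.ES FinI

theorem finI : Pool.Agent.H222Z.ES.FinI := by
  classical
  intro Ω _ w y hw0 hw ⟨a, b, hwa, hwb, hab⟩ η hη
  have hab' : a ≠ b := fun h => hab (by rw [h])
  obtain ⟨R, hR, hy⟩ : ∃ R : ℝ, 1 ≤ R ∧ ∀ ω, ‖y ω‖ ≤ R := by
    refine ⟨1 + ∑ ω, ‖y ω‖, ?_, fun ω => ?_⟩
    · have := Finset.sum_nonneg (s := univ) fun ω _ => norm_nonneg (y ω)
      linarith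
    · have := Finset.single_le_sum (f := fun ω => ‖y ω‖) (fun ω _ => norm_nonneg (y ω))
        (mem_univ ω)
      linarith
  have hex : ∃ m : ℕ, ∑ ω, (w ω : ℂ) * y ω ^ (m + 1) ≠ 0 := by
    by_cases h : y a = 0
    · exact exists_moment w hw0 y b hwb (fun h' => hab (h.trans h'.symm))
    · exact exists_moment w hw0 y a hwa h
  set μ : ℕ → ℂ := fun j => ∑ ω, (w ω : ℂ) * y ω ^ (j + 1) with hμ
  obtain ⟨m, hm1, hm0⟩ : ∃ m, μ m ≠ 0 ∧ ∀ i < m, μ i = 0 :=
    ⟨Nat.find hex, Nat.find_spec hex, fun i hi => not_not.1 (Nat.find_min hex hi)⟩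
  have hμ0 : 0 < ‖μ m‖ := norm_pos_iff.2 hm1
  have hd : 0 < min 1 ‖y a - y b‖ := lt_min one_pos (norm_pos_iff.2 (sub_ne_zero.2 hab))
  obtain ⟨η', hη'⟩ : ∃ η' : ℝ, η' = η / (4 * (m + 1)) := ⟨_, rfl⟩
  have hη'0 : 0 < η' := by rw [hη']; positivity
  obtain ⟨lam, hlam⟩ : ∃ lam : ℝ, lam = 2 * (1 / η' ^ 2 + 2 / η) := ⟨_, rfl⟩
  have hlam0 : 0 < lam := by rw [hlam]; positivity
  obtain ⟨J, hJ⟩ := exists_nat_ge (lam / (η / 4))
  obtain ⟨δ, hδ⟩ : ∃ δ : ℝ, δ = (min 1 ‖y a - y b‖) ^ (m + 1) / (4 * (m + 1).factorial) :=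
    ⟨_, rfl⟩
  have hδ0 : 0 < δ := by rw [hδ]; positivity
  obtain ⟨Λ, hΛ1, hΛ2, hΛ3, hΛ4⟩ := exists_Lam R δ (‖μ m‖ / 4) m J hR hδ0 (by linarith)
  have hΛ0 : 1 ≤ Λ ^ (m + 1) := one_le_pow₀ (by linarith)
  obtain ⟨γ, hγ⟩ : ∃ γ : ℝ, γ = ‖μ m‖ / (8 * Λ ^ (m + 1)) := ⟨_, rfl⟩
  have hγ0 : 0 < γ := by rw [hγ]; positivity
  obtain ⟨κ, hκ⟩ : ∃ κ : ℝ, κ = γ / (2 * (m + 1)) := ⟨_, rfl⟩
  have hκ0 : 0 < κ := by rw [hκ]; positivity
  have hγΛ : γ * Λ ^ (m + 1) = ‖μ m‖ / 8 := by rw [hγ]; field_simp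
  have hκm : 2 * κ * (m + 1) = γ := by rw [hκ]; field_simp
  have hm0' : (0 : ℝ) ≤ m := Nat.cast_nonneg m
  have hκ2 : 4 * κ ≤ ‖μ m‖ := by nlinarith
  have hc1 : (γ + 2 * κ * m) * Λ ^ (m + 1) + 2 * R ^ (m + 2) / Λ < ‖μ m‖ / 2 := by
    have : (γ + 2 * κ * m) * Λ ^ (m + 1) ≤ (2 * γ) * Λ ^ (m + 1) :=
      mul_le_mul_of_nonneg_right (by nlinarith) (by linarith)
    nlinarith
  have hc2 : (m + 1).factorial * (δ + 2 * (1 + 2 * R) ^ J / Λ) <
      (min 1 ‖y a - y b‖) ^ (m + 1) / 2 := by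
    have h1 : (0 : ℝ) < (m + 1).factorial := by positivity
    have h2 : (m + 1).factorial * δ = (min 1 ‖y a - y b‖) ^ (m + 1) / 4 := by
      rw [hδ]; field_simp
    nlinarith
  obtain ⟨n₀, hn₀⟩ := exists_nat_ge (1 + lam / (2 * w a) + lam / (2 * w b) + J * R ^ (m + 1) / κ +
    (m + 1) * (2 * R ^ (m + 1)) ^ 2 / (κ ^ 2 * (η / 4)))
  refine ⟨δ, hδ0, γ, hγ0, n₀, fun n hn k hk => ?_⟩
  have hn' : (n₀ : ℝ) ≤ n := by exact_mod_cast hn
  have p1 : 0 ≤ lam / (2 * w a) := by positivity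
  have p2 : 0 ≤ lam / (2 * w b) := by positivity
  have p3 : 0 ≤ J * R ^ (m + 1) / κ := by positivity
  have p4 : 0 ≤ (m + 1) * (2 * R ^ (m + 1)) ^ 2 / (κ ^ 2 * (η / 4)) := by positivity
  have hn0 : (0 : ℝ) < n := by linarith
  have hnpos : 0 < n := by exact_mod_cast hn0
  obtain ⟨u0, hu0⟩ : ∃ u0 : ℝ, u0 = lam / (2 * n) := ⟨_, rfl⟩
  have hu00 : 0 < u0 := by rw [hu0]; positivity
  have hua : u0 ≤ w a := by
    have : lam / (2 * w a) ≤ n := by linarith
    rw [div_le_iff₀ (by positivity)] at this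
    rw [hu0, div_le_iff₀ (by positivity)]; linarith
  have hub : u0 ≤ w b := by
    have : lam / (2 * w b) ≤ n := by linarith
    rw [div_le_iff₀ (by positivity)] at this
    rw [hu0, div_le_iff₀ (by positivity)]; linarith
  have hJn : J * R ^ (m + 1) ≤ κ * n := by
    have : J * R ^ (m + 1) / κ ≤ n := by linarith
    rw [div_le_iff₀ hκ0] at this; linarith
  have hch : (m + 1) * (n * (2 * R ^ (m + 1)) ^ 2 / (κ * n) ^ 2) ≤ η / 4 := by
    have h1 : (m + 1) * (2 * R ^ (m + 1)) ^ 2 / (κ ^ 2 * (η / 4)) ≤ n := by linarith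
    rw [div_le_iff₀ (by positivity)] at h1
    have h2 : (m + 1) * (n * (2 * R ^ (m + 1)) ^ 2 / (κ * n) ^ 2) =
        (m + 1) * (2 * R ^ (m + 1)) ^ 2 / (κ ^ 2 * n) := by field_simp
    rw [h2, div_le_iff₀ (by positivity)]; linarith
  set typ : Multiset Ω → Prop := fun T =>
    ∀ j < m + 1, ‖(T.map fun ω => y ω ^ (j + 1) - μ j).sum‖ ≤ κ * n with htyp
  set ψ : Multiset Ω → ℝ := fun T => ind (‖(Qp y T).coeff k‖ < δ ∧ typ T) with hψ
  have step1 : E w n (fun s => ind (‖(Qp y s).coeff k‖ < δ)) 0 ≤ E w n ψ 0 +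
      ∑ j ∈ range (m + 1),
        E w n (fun T => ind (κ * n < ‖(T.map fun ω => y ω ^ (j + 1) - μ j).sum‖)) 0 := by
    rw [← E_sum, ← E_add]
    refine E_mono hw0 n fun t _ _ => ?_
    have hs : 0 ≤ ∑ j ∈ range (m + 1),
        ind (κ * n < ‖((0 + t).map fun ω => y ω ^ (j + 1) - μ j).sum‖) :=
      Finset.sum_nonneg fun j _ => ind_nonneg _
    by_cases h : typ (0 + t)
    · have : ind (‖(Qp y (0 + t)).coeff k‖ < δ) ≤ ψ (0 + t) := ind_mono fun h' => ⟨h', h⟩
      linarith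
    · simp only [htyp] at h
      push Not at h
      obtain ⟨j, hj, hj'⟩ := h
      have h1 := Finset.single_le_sum (f := fun j =>
        ind (κ * n < ‖((0 + t).map fun ω => y ω ^ (j + 1) - μ j).sum‖))
        (fun j _ => ind_nonneg _) (mem_range.2 hj)
      simp only [ind_pos hj'] at h1
      have h2 : 0 ≤ ψ (0 + t) := ind_nonneg _
      have h3 := ind_le_one (‖(Qp y (0 + t)).coeff k‖ < δ)
      linarith
  have step2 : ∑ j ∈ range (m + 1),
      E w n (fun T => ind (κ * n < ‖(T.map fun ω => y ω ^ (j + 1) - μ j).sum‖)) 0 ≤ η / 4 := by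
    refine le_trans ?_ hch
    have : ∀ j ∈ range (m + 1),
        E w n (fun T => ind (κ * n < ‖(T.map fun ω => y ω ^ (j + 1) - μ j).sum‖)) 0 ≤
          n * (2 * R ^ (m + 1)) ^ 2 / (κ * n) ^ 2 := by
      intro j hj
      have hj' := mem_range.1 hj
      have hb : ∀ ω, ‖y ω ^ (j + 1)‖ ≤ R ^ (m + 1) := fun ω => by
        rw [norm_pow]
        exact (pow_le_pow_left₀ (norm_nonneg _) (hy ω) _).trans (pow_le_pow_right₀ hR (by omega))
      have hb2 : ‖μ j‖ ≤ R ^ (m + 1) := by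
        refine (norm_sum_le _ _).trans ?_
        calc ∑ ω, ‖(w ω : ℂ) * y ω ^ (j + 1)‖ ≤ ∑ ω, w ω * R ^ (m + 1) := by
              refine Finset.sum_le_sum fun ω _ => ?_
              rw [norm_mul, Complex.norm_real, Real.norm_of_nonneg (hw0 ω)]
              exact mul_le_mul_of_nonneg_left (hb ω) (hw0 ω)
          _ = R ^ (m + 1) := by rw [← Finset.sum_mul, hw, one_mul]
      refine cheb w hw0 hw _ ?_ (fun ω => ?_) n (by positivity)
      · have hw' : ∑ ω, (w ω : ℂ) = 1 := by exact_mod_cast hw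
        simp only [mul_sub, Finset.sum_sub_distrib, ← Finset.sum_mul, hw', one_mul, hμ, sub_self]
      · have := norm_sub_le (y ω ^ (j + 1)) (μ j)
        linarith [hb ω]
    have h2 := Finset.sum_le_card_nsmul _ _ _ this
    simpa using h2
  set u : Ω → ℝ := Pi.single a u0 + Pi.single b u0 with hu
  set v : Ω → ℝ := w - u with hv
  have hv0 : ∀ ω, 0 ≤ v ω := by
    intro ω
    simp only [hv, hu, Pi.sub_apply, Pi.add_apply]
    by_cases h1 : ω = a
    · subst h1; rw [Pi.single_eq_same, Pi.single_eq_of_ne hab']; linarith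
    · by_cases h2 : ω = b
      · subst h2; rw [Pi.single_eq_same, Pi.single_eq_of_ne h1]; linarith
      · rw [Pi.single_eq_of_ne h1, Pi.single_eq_of_ne h2]; linarith [hw0 ω]
  have hvs : 2 * u0 + ∑ ω, v ω = 1 := by
    simp only [hv, hu, Pi.sub_apply, Pi.add_apply, Finset.sum_sub_distrib, Finset.sum_add_distrib,
      hw, Finset.sum_pi_single', mem_univ, if_true]
    ring
  have hβ0 : 0 ≤ ∑ ω, v ω := Finset.sum_nonneg fun ω _ => hv0 ω
  set f : ℕ → ℝ := fun l => η / 4 + ind ((l : ℝ) < lam / 2 - 2 / η) + ind (lam / (η / 4) < l)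
    with hf
  have inner : ∀ l ≤ n, ∀ s : Multiset Ω, s.card = n - l → E u l ψ s ≤ (2 * u0) ^ l * f l := by
    intro l hl s hs
    rw [hu, E_binom]
    have e1 : ∀ i ∈ range (l + 1), (l.choose i : ℝ) *
        E (Pi.single b u0) (l - i) (E (Pi.single a u0) i ψ) s = u0 ^ l * ((l.choose i : ℝ) *
          ψ (Multiset.replicate i a + (Multiset.replicate (l - i) b + s))) := by
      intro i hi
      have hi' := mem_range.1 hi
      rw [E_single, E_single, show u0 ^ l = u0 ^ (l - i) * u0 ^ i by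
        rw [← pow_add]; congr 1; omega]
      ring
    rw [Finset.sum_congr rfl e1, ← Finset.mul_sum, mul_pow, mul_comm ((2 : ℝ) ^ l), mul_assoc]
    refine mul_le_mul_of_nonneg_left ?_ (by positivity)
    have i1 := ind_nonneg ((l : ℝ) < lam / 2 - 2 / η)
    have i2 := ind_nonneg (lam / (η / 4) < l)
    have triv : ∑ i ∈ range (l + 1), (l.choose i : ℝ) *
        ψ (Multiset.replicate i a + (Multiset.replicate (l - i) b + s)) ≤ 2 ^ l * 1 := by
      have h2 : ∑ i ∈ range (l + 1), (l.choose i : ℝ) = 2 ^ l := by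
        exact_mod_cast Nat.sum_range_choose l
      rw [← h2, Finset.sum_mul]
      exact Finset.sum_le_sum fun i _ => mul_le_mul_of_nonneg_left (ind_le_one _) (by positivity)
    by_cases c1 : (l : ℝ) < lam / 2 - 2 / η
    · refine triv.trans (mul_le_mul_of_nonneg_left ?_ (by positivity))
      simp only [hf, ind_pos c1]; linarith
    by_cases c2 : lam / (η / 4) < l
    · refine triv.trans (mul_le_mul_of_nonneg_left ?_ (by positivity))
      simp only [hf, ind_pos c2]; linarith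
    have hlJ : l ≤ J := by
      have : (l : ℝ) ≤ J := by linarith [not_lt.1 c2]
      exact_mod_cast this
    have hl0 : 1 / η' ^ 2 ≤ l := by
      have := not_lt.1 c1
      rw [hlam] at this; linarith
    have hcount : ∑ i ∈ range (l + 1),
        ψ (Multiset.replicate i a + (Multiset.replicate (l - i) b + s)) ≤ m + 1 := by
      by_cases hex' : ∃ i ∈ range (l + 1),
          typ (Multiset.replicate i a + (Multiset.replicate (l - i) b + s))
      · obtain ⟨i0, hi0, ht0⟩ := hex'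
        have hi0' := mem_range.1 hi0
        rw [← add_assoc] at ht0
        have hfew := few y a b μ m n k l J R Λ κ γ δ s _ hy hR hm0 hnpos
          (by simp only [Multiset.card_add, Multiset.card_replicate]; omega)
          (by simp only [Multiset.card_add, Multiset.card_replicate]; omega) hlJ ht0 hJn hκ0.le
          hκ2 hk hΛ1 hc1 hΛ3 hδ0.le hc2
        have h3 : ∑ i ∈ range (l + 1),
            ψ (Multiset.replicate i a + (Multiset.replicate (l - i) b + s)) ≤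
            ∑ i ∈ range (l + 1), if ‖(Qp y (Multiset.replicate i a +
              (Multiset.replicate (l - i) b + s))).coeff k‖ < δ then (1 : ℝ) else 0 := by
          refine Finset.sum_le_sum fun i _ => ?_
          split_ifs with h
          · exact ind_le_one _
          · exact (ind_neg fun h' => h h'.1).le
        rw [Finset.sum_boole] at h3
        exact h3.trans (by exact_mod_cast hfew)
      · rw [Finset.sum_eq_zero fun i hi => ind_neg fun h' => hex' ⟨i, hi, h'.2⟩]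
        positivity
    calc ∑ i ∈ range (l + 1), (l.choose i : ℝ) *
          ψ (Multiset.replicate i a + (Multiset.replicate (l - i) b + s))
        ≤ ∑ i ∈ range (l + 1), (η' * 2 ^ l) *
          ψ (Multiset.replicate i a + (Multiset.replicate (l - i) b + s)) :=
          Finset.sum_le_sum fun i _ =>
            mul_le_mul_of_nonneg_right (choose_small hη'0 hl0 i) (ind_nonneg _)
      _ ≤ (η' * 2 ^ l) * (m + 1) := by
          rw [← Finset.mul_sum]; exact mul_le_mul_of_nonneg_left hcount (by positivity)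
      _ = 2 ^ l * (η / 4) := by rw [hη']; field_simp
      _ ≤ 2 ^ l * f l := mul_le_mul_of_nonneg_left (by simp only [hf]; linarith) (by positivity)
  have step3 : E w n ψ 0 ≤ Bn (2 * u0) (∑ ω, v ω) n f := by
    have : w = u + v := by rw [hv]; abel
    conv_lhs => rw [this]
    rw [E_binom, Bn]
    refine Finset.sum_le_sum fun l hl => ?_
    have hl' : l ≤ n := Nat.lt_succ_iff.1 (mem_range.1 hl)
    have := E_le_const hv0 (n - l) (φ := E u l ψ) (s := 0) (c := (2 * u0) ^ l * f l)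
      fun t ht _ => inner l hl' _ (by simpa using ht)
    have := mul_le_mul_of_nonneg_left this (Nat.cast_nonneg (α := ℝ) (n.choose l))
    linarith
  have hL : n * (2 * u0) = lam * (2 * u0 + ∑ ω, v ω) := by
    rw [hvs, hu0]; field_simp
  have step4 : Bn (2 * u0) (∑ ω, v ω) n f ≤ η / 4 + η / 4 + η / 4 := by
    have b1 := Bn_lower (by linarith : 0 ≤ 2 * u0) hβ0 (by linarith) n hL
      (by positivity : 0 < 2 / η)
    have b2 := Bn_upper (by linarith : 0 ≤ 2 * u0) hβ0 (by linarith) n hL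
      (by positivity : 0 < η / 4)
    have b3 : 1 / (2 * (2 / η)) = η / 4 := by field_simp; ring
    rw [hf, Bn_add, Bn_add, Bn_const]
    rw [hvs, one_pow, mul_one] at *
    linarith
  linarith

end Pool.Agent.H833Z
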